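import Pool.Agent.Lib.MP_fa98d2_nt.B.Final

open Pool.Agent.Lib.MP_fa98d2_nt.D

namespace Pool.Agent.Results.MP_fa98d2_nt.DensityBeyond

theorem result (n : ℕ) (hn : 2 ≤ n) (ε : ℝ) (hε : 0 < ε) :
    ∃ C : ℝ, ∀ p : ℕ, p.Prime → ∀ T : ℝ, 1 ≤ T → ∀ σ : ℝ, 0 ≤ σ →
      ∀ (ι : Type) [Fintype ι] (φ : ι → Matrix (Fin n) (Fin n) ℝ → ℂ) (μ : ι → Fin n → ℂ)
        (α : ι → ℕ → Fin n → ℂ),
        (∀ j, SphCusp (φ j) (μ j) (α j)) →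
        (∀ i j, i ≠ j →
          ¬ ∃ c : ℂ, ∀ g : Matrix (Fin n) (Fin n) ℝ, g.det ≠ 0 → φ j g = c * φ i g) →
        (∀ j l, ‖μ j l‖ ≤ T) → (∀ j, σ ≤ thetaP (α j) p) →
        (Fintype.card ι : ℝ) ≤
          C * (p : ℝ) ^ n * T ^ (((n : ℝ) - 1) * (n + 2) / 2 - 4 * (n - 1) * σ + ε) :=
  B.finalBS n hn ε hε

end Pool.Agent.Results.MP_fa98d2_nt.DensityBeyond
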