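import Pool.Agent.Lib.MP_fa98d2_nt.Final

open Pool.Agent.Lib.MP_fa98d2_nt Filter

namespace Pool.Agent.Results.MP_fa98d2_nt.Sparse

theorem result (φ : Matrix (Fin 3) (Fin 3) ℝ → ℂ) (α : ℕ → Fin 3 → ℂ) (h : CuspForm3 φ α)
    (σ : ℝ) (hσ : 0 < σ) :
    (¬ Summable fun p : TemperedPrimes α => (p : ℝ) ^ (-σ)) ∨
      Summable fun x : Nat.Primes × ℕ+ =>
        ((x.1 : ℝ) ^ (x.2 * theta α x.1) - 1) ^ 2 / (x.2 * (x.1 : ℝ) ^ (x.2 * σ)) :=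
  imp_iff_not_or.1 (h.partA hσ)

end Pool.Agent.Results.MP_fa98d2_nt.Sparse
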